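import Pool.Agent.Lib_helper53.PIX.Shape
import Pool.Agent.Lib_helper53.PIX.Pi

set_option autoImplicit false

namespace Pool.Agent.Results.MP_e4e684_nt.AllButFinitelyMany

open Filter

/-- The number of distinct blocks of length `n` in the base `b` digits of the fractional part of `ξ`
(for `ξ = π` literally the expression of the frozen statement of the problem). -/
noncomputable def blocks (ξ : ℝ) (b n : ℕ) : ℕ :=
  (Set.range (fun i : ℕ =>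
    (fun j : Fin n => ⌊ξ * (b : ℝ) ^ (i + (j : ℕ) + 1)⌋₊ % b))).ncard

/-- (1) For all but finitely many integers `b ≥ 2` the assertion of Q1 holds:
`p(n, π, b) - n → ∞`.
(2) The exceptions. Let `ξ = π`, or let `ξ > 0` be irrational and not a Liouville number. Either
`p(n, ξ, b) - n → ∞` for every `b ≥ 2`, or there are `a ≥ 2` and `g ≥ 1` such that
`p(n, ξ, b) - n → ∞` for every `b ≥ 2` which is not `a ^ k` with `k ∣ g`, while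
`p(n, ξ, a ^ k)` is `n + c` for all large `n` if `k ∣ g`, and at least `2 n - 1` for all `n ≥ 1`
if `k ≥ 1` does not divide `g`. -/
theorem result :
    (∃ B : ℕ, ∀ b : ℕ, B ≤ b →
      Tendsto (fun n : ℕ => (blocks Real.pi b n : ℤ) - (n : ℤ)) atTop atTop) ∧
    (∀ ξ : ℝ, (ξ = Real.pi ∨ (0 < ξ ∧ Irrational ξ ∧ ¬ Liouville ξ)) →
      (∀ b : ℕ, 2 ≤ b → Tendsto (fun n : ℕ => (blocks ξ b n : ℤ) - (n : ℤ)) atTop atTop) ∨
      ∃ a g : ℕ, 2 ≤ a ∧ 1 ≤ g ∧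
        (∀ b : ℕ, 2 ≤ b → (∀ k : ℕ, k ∣ g → b ≠ a ^ k) →
          Tendsto (fun n : ℕ => (blocks ξ b n : ℤ) - (n : ℤ)) atTop atTop) ∧
        (∀ k : ℕ, k ∣ g → ∃ c n₀ : ℕ, ∀ n : ℕ, n₀ ≤ n → blocks ξ (a ^ k) n = n + c) ∧
        (∀ k : ℕ, 1 ≤ k → ¬ k ∣ g → ∀ n : ℕ, 1 ≤ n → 2 * n - 1 ≤ blocks ξ (a ^ k) n)) := by
  have h2 : ∀ ξ : ℝ, (ξ = Real.pi ∨ (0 < ξ ∧ Irrational ξ ∧ ¬ Liouville ξ)) →
      (∀ b : ℕ, 2 ≤ b → Tendsto (fun n : ℕ => (blocks ξ b n : ℤ) - (n : ℤ)) atTop atTop) ∨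
      ∃ a g : ℕ, 2 ≤ a ∧ 1 ≤ g ∧
        (∀ b : ℕ, 2 ≤ b → (∀ k : ℕ, k ∣ g → b ≠ a ^ k) →
          Tendsto (fun n : ℕ => (blocks ξ b n : ℤ) - (n : ℤ)) atTop atTop) ∧
        (∀ k : ℕ, k ∣ g → ∃ c n₀ : ℕ, ∀ n : ℕ, n₀ ≤ n → blocks ξ (a ^ k) n = n + c) ∧
        (∀ k : ℕ, 1 ≤ k → ¬ k ∣ g → ∀ n : ℕ, 1 ≤ n → 2 * n - 1 ≤ blocks ξ (a ^ k) n) := by
    rintro ξ (rfl | ⟨h0, hξ, hL⟩)
    · exact Pool.Agent.Lib_helper53.PIX.shape Real.pi_pos irrational_pi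
        Pool.Agent.Lib_helper53.PIX.pi_measure
    · exact Pool.Agent.Lib_helper53.PIX.shape h0 hξ
        (Pool.Agent.Lib_helper53.PIX.measure_of_not_liouville hξ hL)
  refine ⟨?_, h2⟩
  rcases h2 Real.pi (Or.inl rfl) with h | ⟨a, g, ha, hg, h, -, -⟩
  · exact ⟨2, fun b hb => h b hb⟩
  · refine ⟨a ^ g + 1, fun b hb => h b ?_ fun k hk => ?_⟩
    · have : 1 ≤ a ^ g := Nat.one_le_pow _ _ (by omega)
      omega
    · have h1 : a ^ k ≤ a ^ g := Nat.pow_le_pow_right (by omega) (Nat.le_of_dvd (by omega) hk)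
      omega

end Pool.Agent.Results.MP_e4e684_nt.AllButFinitelyMany
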